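import Mathlib
import Pool.Agent.ATB.Stmts2

/-!
# ATB, module GN2: families of columns
-/

set_option autoImplicit false

namespace Pool.Agent.ATB.H49G

theorem card_out {K : Type} [Field K] {n : ℕ} {ι : Type} [Fintype ι] (f : ι → Fin n → K)
    (U : Submodule K (Fin n → K)) :
    (out ((Finset.univ : Finset ι).val.map f) U).card = Nat.card {c // f c ∉ U} := by
  classical
  unfold out
  rw [Multiset.filter_map, Multiset.card_map, Nat.card_eq_fintype_card, Fintype.card_subtype]
  rw [Finset.card, Finset.filter_val]
  congr 1

theorem map_equiv {ι β α : Type} [Fintype β] (S : Finset ι) (e : β ≃ S) (col : ι → α) :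
    (Finset.univ : Finset β).val.map (fun c => col (e c : ι)) = S.val.map col := by
  classical
  have h : (Finset.univ : Finset β).map (e.toEmbedding.trans (Function.Embedding.subtype _)) = S := by
    ext x
    simp only [Finset.mem_map, Finset.mem_univ, true_and, Function.Embedding.trans_apply,
      Equiv.coe_toEmbedding, Function.Embedding.subtype_apply]
    constructor
    · rintro ⟨c, rfl⟩
      exact (e c).2
    · intro hx
      exact ⟨e.symm ⟨x, hx⟩, by simp⟩
  conv_rhs => rw [← h]
  rw [Finset.map_val, Multiset.map_map]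
  rfl

theorem gn2 (van : VANStmt) (loc : LOCStmt) (pix : PIXStmt) (pco : PCOStmt) : GN2Stmt := by
  intro p hp K _ hc n ι _ Y hY
  classical
  have hp1 : 1 ≤ p := (Fact.out : p.Prime).one_le
  by_cases h : ∀ U D : Multiset (Fin n → K), U + D = (Finset.univ : Finset ι).val.map (fun c r => Y r c) →
      U.card = (p - 1) * n → lam p (prodm U) = 0
  · exfalso
    obtain ⟨W, k, h1, h2⟩ := loc p K n ((Finset.univ : Finset ι).val.map (fun c r => Y r c))
      (fun F hF => by
        have h3 := hY F hF
        rw [card_out]
        have h4 : (((2 * p - 1) * n : ℕ) : ℤ) ≤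
            ((Nat.card {c // (fun r => Y r c) ∉ F} + (2 * p - 1) * Module.finrank K F + 1 : ℕ) : ℤ) := by
          exact_mod_cast h3
        push_cast [Nat.cast_sub (show 1 ≤ 2 * p by omega)] at h4
        rw [mul_sub]
        linarith) h
    exact h2 (van p K n W _ k _ (fun z hz => (mem_ins.1 hz).2) h1).2
  · push Not at h
    obtain ⟨U, D, h1, h2, h3⟩ := h
    obtain ⟨S, hS⟩ := pix ι (Fin n → K) (fun c r => Y r c) U D h1
    have hcard : S.card = (p - 1) * n := by
      rw [← h2, hS, Multiset.card_map]
      rfl
    have e : Fin (p - 1) × Fin n ≃ S := Fintype.equivOfCardEq (by simp [hcard])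
    refine ⟨fun c => (e c : ι), Subtype.val_injective.comp e.injective, ?_⟩
    apply pco p K n (Matrix.of fun r c => Y r (e c))
    rw [hS] at h3
    have h4 := map_equiv S e (fun (c : ι) (r : Fin n) => Y r c)
    rw [← h4] at h3
    exact h3

end Pool.Agent.ATB.H49G
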