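import Mathlib
import Pool.Agent.ATB.Stmts2
import Pool.Agent.Helper90_ATB.Dif

/-!
# ATB, modules LCA, LCB, PIX
-/

set_option autoImplicit false

namespace Pool.Agent.ATB.H49

open scoped TensorProduct

/-! ### PIX -/

theorem exists_le_map {α β : Type} (f : α → β) (s : Multiset α) :
    ∀ U : Multiset β, U ≤ s.map f → ∃ t ≤ s, t.map f = U := by
  classical
  induction s using Multiset.induction_on with
  | empty =>
    intro U hU
    rw [Multiset.map_zero] at hU
    exact ⟨0, le_rfl, by rw [Multiset.map_zero]; exact (Multiset.le_zero.1 hU).symm⟩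
  | cons a s ih =>
    intro U hU
    rw [Multiset.map_cons] at hU
    by_cases h : f a ∈ U
    · obtain ⟨U', rfl⟩ := Multiset.exists_cons_of_mem h
      rw [Multiset.cons_le_cons_iff] at hU
      obtain ⟨t, ht, rfl⟩ := ih U' hU
      exact ⟨a ::ₘ t, Multiset.cons_le_cons a ht, by rw [Multiset.map_cons]⟩
    · obtain ⟨t, ht, rfl⟩ := ih U ((Multiset.le_cons_of_notMem h).1 hU)
      exact ⟨t, ht.trans (Multiset.le_cons_self s a), rfl⟩

theorem pix : PIXStmt := by
  intro α β _ f U D h
  obtain ⟨t, ht, rfl⟩ := exists_le_map f Finset.univ.val U (by rw [← h]; exact Multiset.le_add_right _ _)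
  exact ⟨⟨t, Multiset.nodup_of_le ht Finset.univ.nodup⟩, rfl⟩

/-! ### LCB -/

theorem lcb : LCBStmt := by
  intro K _ _ n D
  obtain ⟨-, -, h3, -, h5, -, -⟩ := H90.dif K n
  constructor
  · intro s
    induction D using Multiset.induction_on with
    | empty => simp [prodm_zero]
    | cons b D ih =>
      rw [prodm_cons, Derivation.leibniz, ih, pderiv_lin, Multiset.map_cons, Multiset.sum_cons,
        Multiset.erase_cons_head]
      have e : ∀ a ∈ D, MvPolynomial.C (a s) * prodm ((b ::ₘ D).erase a) =
          lin b * (MvPolynomial.C (a s) * prodm (D.erase a)) := by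
        intro a ha
        rw [Multiset.erase_cons_tail_of_mem ha, prodm_cons]
        ring
      rw [Multiset.map_congr rfl e, Multiset.sum_map_mul_left]
      simp only [smul_eq_mul]
      ring
  · intro ω
    induction D using Multiset.induction_on with
    | empty =>
      rw [prodm_zero, h5]
      simp
    | cons b D ih =>
      rw [prodm_cons, ← pm_tmul, h3, ih, Multiset.map_cons, Multiset.sum_cons,
        Multiset.erase_cons_head, wl_tmul]
      congr 1
      rw [map_multiset_sum, Multiset.map_map]
      congr 1
      apply Multiset.map_congr rfl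
      intro a ha
      simp only [Function.comp_apply]
      rw [pm_tmul, Multiset.erase_cons_tail_of_mem ha, prodm_cons]

/-! ### LCA -/

section
variable {K : Type} [Field K] {n : ℕ}

theorem lin_hom (v : Fin n → K) : (lin v).IsHomogeneous 1 := by
  rw [lin_apply]
  apply MvPolynomial.IsHomogeneous.sum
  intro s _
  rw [MvPolynomial.smul_eq_C_mul]
  exact (MvPolynomial.isHomogeneous_X K s).C_mul _

theorem prodm_hom (D : Multiset (Fin n → K)) : (prodm D).IsHomogeneous D.card := by
  induction D using Multiset.induction_on with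
  | empty => rw [prodm_zero]; exact MvPolynomial.isHomogeneous_one _ _
  | cons b D ih =>
    rw [prodm_cons, Multiset.card_cons, add_comm]
    exact (lin_hom b).mul ih

theorem degree_topx (p : ℕ) : (topx p n).degree = (p - 1) * n := by
  rw [Finsupp.degree_eq_sum]
  simp [topx, mul_comm]

theorem lam_mul (p : ℕ) (g f : MvPolynomial (Fin n) K) :
    lam p (g * f) = ∑ x ∈ Finset.HasAntidiagonal.antidiagonal (topx p n), MvPolynomial.coeff x.1 g *
      MvPolynomial.coeff x.2 f := by
  classical
  exact MvPolynomial.coeff_mul _ _ _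

theorem coeff_prodm (D : Multiset (Fin n → K)) (x : Fin n →₀ ℕ) (h : x.degree ≠ D.card) :
    MvPolynomial.coeff x (prodm D) = 0 :=
  (prodm_hom D).coeff_eq_zero h

theorem lca1 (p : ℕ) (g : MvPolynomial (Fin n) K) (D : Multiset (Fin n → K))
    (h : (p - 1) * n < D.card) : lam p (g * prodm D) = 0 := by
  rw [lam_mul]
  apply Finset.sum_eq_zero
  intro x hx
  rw [coeff_prodm, mul_zero]
  have h1 := Finset.HasAntidiagonal.mem_antidiagonal.1 hx
  have h2 : x.1.degree + x.2.degree = (p - 1) * n := by
    rw [← degree_topx, ← h1, map_add]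
  omega

theorem lca2 (p : ℕ) (g : MvPolynomial (Fin n) K) (D : Multiset (Fin n → K))
    (h : D.card = (p - 1) * n) :
    lam p (g * prodm D) = MvPolynomial.coeff 0 g * lam p (prodm D) := by
  classical
  rw [lam_mul]
  rw [Finset.sum_eq_single_of_mem ((0 : Fin n →₀ ℕ), topx p n)
    (Finset.HasAntidiagonal.mem_antidiagonal.2 (zero_add _))]
  · rfl
  · intro x hx hne
    have h1 : x.1 + x.2 = topx p n := Finset.HasAntidiagonal.mem_antidiagonal.1 hx
    have h2 : x.1.degree + x.2.degree = (p - 1) * n := by
      rw [← degree_topx, ← h1, map_add]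
    rw [coeff_prodm, mul_zero]
    intro h3
    have h4 : x.1.degree = 0 := by omega
    have h5 : x.1 = 0 := (Finsupp.degree_eq_zero_iff _).1 h4
    apply hne
    rw [h5, zero_add] at h1
    exact Prod.ext h5 h1

theorem lca3 (p : ℕ) (D : Multiset (Fin n → K)) (h : D.card < (p - 1) * n) :
    lam p (prodm D) = 0 := by
  apply coeff_prodm
  rw [degree_topx]
  omega

theorem lca4 (p : ℕ) [Fact p.Prime] [CharP K p] (s : Fin n) (f : MvPolynomial (Fin n) K) :
    lam p (MvPolynomial.pderiv s f) = 0 := by
  classical
  induction f using MvPolynomial.induction_on' with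
  | monomial u a =>
    rw [MvPolynomial.pderiv_monomial]
    unfold lam
    rw [MvPolynomial.coeff_monomial]
    split_ifs with h
    · have h1 : (u - Finsupp.single s 1 : Fin n →₀ ℕ) s = p - 1 := by
        rw [h]
        simp [topx]
      rw [Finsupp.tsub_apply, Finsupp.single_eq_same] at h1
      have hp : 2 ≤ p := (Fact.out : p.Prime).two_le
      have h2 : u s = p := by omega
      rw [h2, CharP.cast_eq_zero, mul_zero]
    · rfl
  | add f g hf hg =>
    unfold lam at *
    rw [map_add, MvPolynomial.coeff_add, hf, hg, add_zero]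

end

theorem lca : LCAStmt := by
  intro p hp K _ hc n
  refine ⟨lca1 p, lca2 p, lca3 p, lca4 p, ?_, ?_⟩
  · intro s f hf g
    have h1 := lca4 p s (g * f)
    rw [Derivation.leibniz] at h1
    have h2 := hf (MvPolynomial.pderiv s g)
    unfold lam at *
    rw [MvPolynomial.coeff_add] at h1
    simp only [smul_eq_mul] at h1
    rw [mul_comm f, h2, add_zero] at h1
    exact h1
  · intro h
    have h1 := h (MvPolynomial.monomial (topx p n) 1)
    unfold lam at h1
    rw [mul_one, MvPolynomial.coeff_monomial, if_pos rfl] at h1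
    exact one_ne_zero h1

end Pool.Agent.ATB.H49
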