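import Mathlib
import Pool.Agent.ATB.Stmts

/-!
# ATB, module SGX: exactness of the stable complex
-/

set_option autoImplicit false

namespace Pool.Agent.ATB.H49

open scoped TensorProduct

variable {K : Type} [Field K] {n : ℕ}

/-- `Σ_l c^l α_l` -/
noncomputable def F1 (c : Fin n → K) : (ℕ →₀ AA K n) →ₗ[K] AA K n :=
  Finsupp.lsum K fun l => pm (lin c ^ l)

/-- `Σ_l c^l dc ∧ β_l` -/
noncomputable def F2 (c : Fin n → K) : (ℕ →₀ AA K n) →ₗ[K] AA K n :=
  Finsupp.lsum K fun l => pm (lin c ^ l) ∘ₗ wl c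

theorem F1_single (c : Fin n → K) (l : ℕ) (x : AA K n) :
    F1 c (Finsupp.single l x) = pm (lin c ^ l) x := by
  simp [F1]

theorem F2_single (c : Fin n → K) (l : ℕ) (x : AA K n) :
    F2 c (Finsupp.single l x) = pm (lin c ^ l) (wl c x) := by
  simp [F2]

theorem F1_range (c : Fin n → K) (α : ℕ →₀ AA K n) (N : ℕ) (h : ∀ l, N ≤ l → α l = 0) :
    F1 c α = ∑ l ∈ Finset.range N, pm (lin c ^ l) (α l) := by
  unfold F1
  rw [Finsupp.lsum_apply]
  apply Finsupp.sum_of_support_subset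
  · intro l hl
    rw [Finset.mem_range]
    by_contra hN
    exact (Finsupp.mem_support_iff.1 hl) (h l (not_lt.1 hN))
  · intro l _
    exact map_zero _

theorem F2_range (c : Fin n → K) (β : ℕ →₀ AA K n) (N : ℕ) (h : ∀ l, N ≤ l → β l = 0) :
    F2 c β = ∑ l ∈ Finset.range N, pm (lin c ^ l) (wl c (β l)) := by
  unfold F2
  rw [Finsupp.lsum_apply]
  apply Finsupp.sum_of_support_subset
  · intro l hl
    rw [Finset.mem_range]
    by_contra hN
    exact (Finsupp.mem_support_iff.1 hl) (h l (not_lt.1 hN))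
  · intro l _
    exact map_zero _

theorem exists_bound (α β : ℕ →₀ AA K n) : ∃ N : ℕ, (∀ l, N ≤ l → α l = 0) ∧
    ∀ l, N ≤ l → β l = 0 := by
  classical
  refine ⟨(α.support ∪ β.support).sup id + 1, ?_, ?_⟩
  · intro l hl
    by_contra h
    have : l ≤ (α.support ∪ β.support).sup id :=
      Finset.le_sup (f := id) (Finset.mem_union_left _ (Finsupp.mem_support_iff.2 h))
    omega
  · intro l hl
    by_contra h
    have : l ≤ (α.support ∪ β.support).sup id :=
      Finset.le_sup (f := id) (Finset.mem_union_right _ (Finsupp.mem_support_iff.2 h))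
    omega

/-- the decomposition of the elements of `Sig` -/
theorem sig_decomp (lpw : LPWStmt) (k : ℤ) (Z : Multiset (Fin n → K)) (c : Fin n → K) (m : ℤ)
    (θ : AA K n) (hθ : θ ∈ Sig k Z c m) :
    ∃ α β : ℕ →₀ AA K n, (∀ l : ℕ, α l ∈ Om (k + l) Z m) ∧
      (∀ l : ℕ, β l ∈ Om (k + l + 1) Z (m - 1)) ∧ θ = F1 c α + F2 c β := by
  classical
  obtain ⟨-, -, h3, -⟩ := lpw K n
  unfold Sig at hθ
  induction hθ using Submodule.span_induction with
  | mem x hx =>
    obtain ⟨l, B, D, ω, hω, hBD, hc, rfl⟩ := hx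
    obtain ⟨ω₀, h0, ω₁, h1, rfl⟩ := h3 _ _ _ _ hω
    refine ⟨Finsupp.single l (prodm D ⊗ₜ[K] ω₀), Finsupp.single l (prodm D ⊗ₜ[K] ω₁), ?_, ?_, ?_⟩
    · intro l'
      by_cases h : l' = l
      · subst h
        rw [Finsupp.single_eq_same]
        exact Submodule.subset_span ⟨B, D, ω₀, h0, hBD, by rw [hc], rfl⟩
      · rw [Finsupp.single_eq_of_ne h]
        exact Submodule.zero_mem _
    · intro l'
      by_cases h : l' = l
      · subst h
        rw [Finsupp.single_eq_same]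
        exact Submodule.subset_span ⟨B, D, ω₁, h1, hBD, by rw [hc]; ring, rfl⟩
      · rw [Finsupp.single_eq_of_ne h]
        exact Submodule.zero_mem _
    · rw [F1_single, F2_single, wl_tmul, pm_tmul, pm_tmul, ← TensorProduct.tmul_add]
  | zero =>
    exact ⟨0, 0, fun l => Submodule.zero_mem _, fun l => Submodule.zero_mem _, by simp⟩
  | add x y _ _ hx hy =>
    obtain ⟨α, β, h1, h2, rfl⟩ := hx
    obtain ⟨α', β', h1', h2', rfl⟩ := hy
    refine ⟨α + α', β + β', fun l => Submodule.add_mem _ (h1 l) (h1' l),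
      fun l => Submodule.add_mem _ (h2 l) (h2' l), ?_⟩
    rw [map_add, map_add]
    abel
  | smul a x _ hx =>
    obtain ⟨α, β, h1, h2, rfl⟩ := hx
    refine ⟨a • α, a • β, fun l => Submodule.smul_mem _ _ (h1 l),
      fun l => Submodule.smul_mem _ _ (h2 l), ?_⟩
    rw [map_smul, map_smul, smul_add]

/-- the elements `c^l x`, `x ∈ Om (k + l) Z i`, are in `Sig` -/
theorem pm_mem (lpw : LPWStmt) (k : ℤ) (Z : Multiset (Fin n → K)) (c : Fin n → K) (i : ℤ) (l : ℕ)
    (x : AA K n) (hx : x ∈ Om (k + l) Z i) : pm (lin c ^ l) x ∈ Sig k Z c i := by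
  obtain ⟨h1, -, -, -⟩ := lpw K n
  unfold Om at hx
  induction hx using Submodule.span_induction with
  | mem x hx =>
    obtain ⟨B, D, ω, hω, hBD, hc, rfl⟩ := hx
    rw [pm_tmul]
    exact Submodule.subset_span ⟨l, B, D, ω, h1 _ _ _ le_sup_left hω, hBD, by rw [hc], rfl⟩
  | zero => rw [map_zero]; exact Submodule.zero_mem _
  | add x y _ _ hx hy => rw [map_add]; exact Submodule.add_mem _ hx hy
  | smul a x _ hx => rw [map_smul]; exact Submodule.smul_mem _ _ hx

/-- the elements `c^l dc ∧ x`, `x ∈ Om (k + l + 1) Z (i - 1)`, are in `Sig` -/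
theorem wl_mem (lpw : LPWStmt) (k : ℤ) (Z : Multiset (Fin n → K)) (c : Fin n → K) (i : ℤ) (l : ℕ)
    (x : AA K n) (hx : x ∈ Om (k + l + 1) Z (i - 1)) : pm (lin c ^ l) (wl c x) ∈ Sig k Z c i := by
  obtain ⟨h1, h2, -, -⟩ := lpw K n
  unfold Om at hx
  induction hx using Submodule.span_induction with
  | mem x hx =>
    obtain ⟨B, D, ω, hω, hBD, hc, rfl⟩ := hx
    rw [wl_tmul, pm_tmul]
    refine Submodule.subset_span ⟨l, B, D, _, ?_, hBD, ?_, rfl⟩
    · have h3 := h2 (sp B ⊔ Submodule.span K {c}) (i - 1) c ω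
        (Submodule.mem_sup_right (Submodule.mem_span_singleton_self c)) (h1 _ _ _ le_sup_left hω)
      rwa [sub_add_cancel] at h3
    · rw [hc]
      ring
  | zero => rw [map_zero, map_zero]; exact Submodule.zero_mem _
  | add x y _ _ hx hy => rw [map_add, map_add]; exact Submodule.add_mem _ hx hy
  | smul a x _ hx => rw [map_smul, map_smul]; exact Submodule.smul_mem _ _ hx

/-- the forms with all data in the kernel of `P` -/
noncomputable def NN (P : Module.Dual K (Fin n → K)) : Submodule K (AA K n) :=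
  Submodule.span K {x | ∃ (D : Multiset (Fin n → K)) (i : ℤ), ∃ ω ∈ Lpow (LinearMap.ker P) i,
    (∀ z ∈ D, P z = 0) ∧ x = prodm D ⊗ₜ[K] ω}

theorem om_le (lpw : LPWStmt) (P : Module.Dual K (Fin n → K)) (k : ℤ) (Z : Multiset (Fin n → K))
    (i : ℤ) (hZ : ∀ z ∈ Z, P z = 0) : Om k Z i ≤ NN P := by
  obtain ⟨h1, -, -, -⟩ := lpw K n
  unfold Om
  rw [Submodule.span_le]
  rintro x ⟨B, D, ω, hω, hBD, hc, rfl⟩
  refine Submodule.subset_span ⟨D, i, ω, h1 _ _ _ ?_ hω, ?_, rfl⟩
  · rw [sp_le]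
    intro z hz
    exact hZ z (by rw [← hBD]; exact Multiset.mem_add.2 (Or.inl hz))
  · intro z hz
    exact hZ z (by rw [← hBD]; exact Multiset.mem_add.2 (Or.inr hz))

theorem ldp_one (π : (Fin n → K) →ₗ[K] (Fin n → K)) (u : ℕ) :
    ldp π u (1 : MvPolynomial (Fin n) K) = if u = 0 then 1 else 0 := by
  unfold ldp
  simp only [LinearMap.comp_apply, AlgHom.toLinearMap_apply, map_one,
    LinearMap.restrictScalars_apply, Polynomial.lcoeff_apply, Polynomial.coeff_one]

/-- the part of order `j` of `c^l x`, `x ∈ NN P` -/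
theorem ld_pm (lea : LEAStmt) (P : Module.Dual K (Fin n → K)) (c : Fin n → K)
    (π : (Fin n → K) →ₗ[K] (Fin n → K)) (hπc : π c = c) (hπ : ∀ v, P v = 0 → π v = 0)
    (j l : ℕ) (x : AA K n) (hx : x ∈ NN P) :
    ld π j (pm (lin c ^ l) x) = if l = j then pm (lin c ^ l) x else 0 := by
  obtain ⟨-, h4, -, -, -, -, h8, h9⟩ := lea K n
  unfold NN at hx
  induction hx using Submodule.span_induction with
  | mem x hx =>
    obtain ⟨D, i, ω, hω, hD, rfl⟩ := hx
    rw [pm_tmul, h8, h9 π c l j (prodm D) hπc]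
    have hD' : ∀ u, ldp π u (prodm D) = prodm D * (if u = 0 then 1 else 0) := by
      intro u
      have h := h4 π D u 1 (fun z hz => hπ z (hD z hz))
      rw [mul_one, ldp_one] at h
      exact h
    rw [hD']
    by_cases h : l = j
    · subst h
      simp
    · rw [if_neg h]
      by_cases h2 : l ≤ j
      · have h3 : j - l ≠ 0 := by omega
        rw [if_pos h2, if_neg h3]
        simp
      · rw [if_neg h2, TensorProduct.zero_tmul]
  | zero => simp
  | add x y _ _ hx hy =>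
    rw [map_add, map_add, hx, hy]
    split_ifs
    · rfl
    · exact add_zero _
  | smul a x _ hx =>
    rw [map_smul, map_smul, hx]
    split_ifs
    · rfl
    · exact smul_zero _

theorem ctr_NN (ctrS : CTRStmt) (P : Module.Dual K (Fin n → K)) (x : AA K n) (hx : x ∈ NN P) :
    ctr P x = 0 := by
  obtain ⟨-, -, -, h4⟩ := ctrS K n P
  unfold NN at hx
  induction hx using Submodule.span_induction with
  | mem x hx =>
    obtain ⟨D, i, ω, hω, hD, rfl⟩ := hx
    exact h4 _ _ _ _ (fun u hu => hu) hω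
  | zero => exact map_zero _
  | add x y _ _ hx hy => rw [map_add, hx, hy, add_zero]
  | smul a x _ hx => rw [map_smul, hx, smul_zero]

/-- independence -/
theorem indep (lea : LEAStmt) (ctrS : CTRStmt) (P : Module.Dual K (Fin n → K)) (c : Fin n → K)
    (hPc : P c = 1) (α β : ℕ →₀ AA K n) (hα : ∀ l, α l ∈ NN P) (hβ : ∀ l, β l ∈ NN P)
    (h : F1 c α + F2 c β = 0) : (∀ l, α l = 0) ∧ ∀ l, β l = 0 := by
  classical
  obtain ⟨-, -, -, -, -, h7, h8, h9⟩ := id (lea K n)
  obtain ⟨c1, -, -, -⟩ := ctrS K n P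
  let π : (Fin n → K) →ₗ[K] (Fin n → K) := P.smulRight c
  have hπc : π c = c := by simp [π, hPc]
  have hπ : ∀ v, P v = 0 → π v = 0 := by
    intro v hv
    simp [π, hv]
  have hc0 : lin c ≠ (0 : MvPolynomial (Fin n) K) := by
    rw [Ne, lin_eq_zero_iff]
    rintro rfl
    rw [map_zero] at hPc
    exact zero_ne_one hPc
  obtain ⟨N, hN1, hN2⟩ := exists_bound α β
  have key : ∀ j, α j = 0 ∧ β j = 0 := by
    intro j
    have h1 : ld π j (F1 c α + F2 c β) = pm (lin c ^ j) (α j + wl c (β j)) := by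
      rw [F1_range c α (N + j + 1) (fun l hl => hN1 l (by omega)),
        F2_range c β (N + j + 1) (fun l hl => hN2 l (by omega)), map_add, map_sum, map_sum,
        map_add]
      congr 1
      · rw [Finset.sum_eq_single_of_mem j (Finset.mem_range.2 (by omega))]
        · rw [ld_pm lea P c π hπc hπ j j _ (hα j), if_pos rfl]
        · intro l _ hl
          rw [ld_pm lea P c π hπc hπ j l _ (hα l), if_neg hl]
      · rw [Finset.sum_eq_single_of_mem j (Finset.mem_range.2 (by omega))]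
        · rw [← wl_pm, h7, ld_pm lea P c π hπc hπ j j _ (hβ j), if_pos rfl, wl_pm]
        · intro l _ hl
          rw [← wl_pm, h7, ld_pm lea P c π hπc hπ j l _ (hβ l), if_neg hl, map_zero]
    rw [h, map_zero] at h1
    have h2 : α j + wl c (β j) = 0 := by
      apply pm_injective (pow_ne_zero j hc0)
      rw [map_zero]
      exact h1.symm
    have h3 : ctr P (α j + wl c (β j)) = β j := by
      rw [map_add, ctr_NN ctrS P _ (hα j), c1, ctr_NN ctrS P _ (hβ j), map_zero, hPc, one_smul,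
        sub_zero, zero_add]
    rw [h2, map_zero] at h3
    refine ⟨?_, h3.symm⟩
    rw [← h3, map_zero, add_zero] at h2
    exact h2
  exact ⟨fun l => (key l).1, fun l => (key l).2⟩

/-- differential of `c^l x` -/
theorem dd_pm (dif : DIFStmt) (c : Fin n → K) (l : ℕ) (x : AA K n) :
    dd (pm (lin c ^ (l + 1)) x) = ((l + 1 : ℕ) : K) • pm (lin c ^ l) (wl c x) +
      pm (lin c ^ (l + 1)) (dd x) := by
  obtain ⟨-, -, -, -, -, h6, -⟩ := dif K n
  exact h6 c l x

/-- differential of `c^l dc ∧ x` -/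
theorem dd_wl (dif : DIFStmt) (c : Fin n → K) (l : ℕ) (x : AA K n) :
    dd (pm (lin c ^ l) (wl c x)) = - pm (lin c ^ l) (wl c (dd x)) := by
  obtain ⟨-, h2, -, h4, -, h6, -⟩ := dif K n
  rw [← wl_pm, h4]
  cases l with
  | zero =>
    rw [pow_zero, pm_one, pm_one]
  | succ l =>
    rw [h6, map_add, map_smul, wl_pm, h2, map_zero, smul_zero, zero_add, wl_pm]

theorem sgx (dif : DIFStmt) (lpw : LPWStmt) (lea : LEAStmt) (ctrS : CTRStmt) (clo : CLOStmt) :
    SGXStmt := by
  classical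
  intro p hp K _ hchar n k Z c m P hPc hZ hex0 hex θ hθ hdθ
  obtain ⟨α, β, hα, hβ, rfl⟩ := sig_decomp lpw k Z c m θ hθ
  obtain ⟨N, hN1, hN2⟩ := exists_bound α β
  -- the differential
  let α' : ℕ →₀ AA K n := α.mapRange (fun x => dd x) (map_zero _)
  let β1 : ℕ →₀ AA K n := β.mapRange (fun x => - dd x) (by simp)
  let β2 : ℕ →₀ AA K n := ∑ l ∈ Finset.range N, Finsupp.single l (((l + 1 : ℕ) : K) • α (l + 1))
  have hβ2 : ∀ l, β2 l = ((l + 1 : ℕ) : K) • α (l + 1) := by
    intro l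
    simp only [β2]
    rw [Finset.sum_apply']
    by_cases hl : l < N
    · rw [Finset.sum_eq_single_of_mem l (Finset.mem_range.2 hl)]
      · rw [Finsupp.single_eq_same]
      · intro l' _ hl'
        rw [Finsupp.single_eq_of_ne (Ne.symm hl')]
    · rw [hN1 (l + 1) (by omega), smul_zero]
      apply Finset.sum_eq_zero
      intro l' hl'
      have : l' < N := Finset.mem_range.1 hl'
      rw [Finsupp.single_eq_of_ne (by omega)]
  have hdec : dd (F1 c α + F2 c β) = F1 c α' + F2 c (β2 + β1) := by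
    rw [F1_range c α (N + 1) (fun l hl => hN1 l (by omega)),
      F2_range c β N (fun l hl => hN2 l (by omega)),
      F1_range c α' (N + 1) (fun l hl => by simp [α', hN1 l (by omega)]),
      F2_range c (β2 + β1) N (fun l hl => by
        rw [Finsupp.add_apply, hβ2, hN1 (l + 1) (by omega)]
        simp [β1, hN2 l hl])]
    rw [map_add, map_sum, map_sum, Finset.sum_range_succ', Finset.sum_range_succ']
    have e1 : ∀ l ∈ Finset.range N, dd (pm (lin c ^ (l + 1)) (α (l + 1))) =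
        pm (lin c ^ l) (wl c (β2 l)) + pm (lin c ^ (l + 1)) (α' (l + 1)) := by
      intro l _
      rw [dd_pm dif, hβ2, map_smul, map_smul]
      rfl
    have e2 : ∀ l ∈ Finset.range N, dd (pm (lin c ^ l) (wl c (β l))) =
        pm (lin c ^ l) (wl c (β1 l)) := by
      intro l _
      rw [dd_wl dif]
      simp [β1]
    have e3 : ∀ l ∈ Finset.range N, pm (lin c ^ l) (wl c ((β2 + β1) l)) =
        pm (lin c ^ l) (wl c (β2 l)) + pm (lin c ^ l) (wl c (β1 l)) := by
      intro l _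
      rw [Finsupp.add_apply, map_add, map_add]
    have e4 : dd (pm (lin c ^ 0) (α 0)) = pm (lin c ^ 0) (α' 0) := by
      rw [pow_zero, pm_one, pm_one]
      rfl
    rw [Finset.sum_congr rfl e1, Finset.sum_congr rfl e2, Finset.sum_congr rfl e3, e4,
      Finset.sum_add_distrib, Finset.sum_add_distrib]
    abel
  obtain ⟨hO, -⟩ := clo K n k Z
  have hcl : ∀ (k' i : ℤ) (x : AA K n), x ∈ Om k' Z i → dd x ∈ Om k' Z (i + 1) :=
    fun k' i x hx => (clo K n k' Z).1 i x hx
  have hNN : ∀ (k' i : ℤ), Om k' Z i ≤ NN P := fun k' i => om_le lpw P k' Z i hZ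
  rw [hdec] at hdθ
  obtain ⟨i1, i2⟩ := indep lea ctrS P c hPc α' (β2 + β1)
    (fun l => by
      have : α' l = dd (α l) := rfl
      rw [this]
      exact hNN _ _ (hcl _ _ _ (hα l)))
    (fun l => by
      rw [Finsupp.add_apply, hβ2]
      refine Submodule.add_mem _ (Submodule.smul_mem _ _ (hNN _ _ (hα (l + 1)))) ?_
      have : β1 l = - dd (β l) := rfl
      rw [this]
      exact Submodule.neg_mem _ (hNN _ _ (hcl _ _ _ (hβ l)))) hdθ
  have hdα : ∀ l, dd (α l) = 0 := i1
  have hdβ : ∀ l, dd (β l) = ((l + 1 : ℕ) : K) • α (l + 1) := by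
    intro l
    have h := i2 l
    rw [Finsupp.add_apply, hβ2] at h
    have h2 : β1 l = - dd (β l) := rfl
    rw [h2, ← sub_eq_add_neg, sub_eq_zero] at h
    exact h.symm
  -- membership in the image
  suffices h : F1 c α + F2 c β ∈ (Sig k Z c (m - 1)).map dd by
    obtain ⟨θ', h1, h2⟩ := h
    exact ⟨θ', h1, h2⟩
  have hsum : F1 c α + F2 c β = pm (lin c ^ 0) (α 0) + ∑ l ∈ Finset.range N,
      (pm (lin c ^ (l + 1)) (α (l + 1)) + pm (lin c ^ l) (wl c (β l))) := by
    rw [F1_range c α (N + 1) (fun l hl => hN1 l (by omega)),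
      F2_range c β N (fun l hl => hN2 l (by omega)), Finset.sum_range_succ',
      Finset.sum_add_distrib]
    abel
  rw [hsum]
  refine Submodule.add_mem _ ?_ (Submodule.sum_mem _ fun l _ => ?_)
  · have h0 := hα 0
    rw [Nat.cast_zero, add_zero] at h0
    obtain ⟨γ, hγ, hγ2⟩ := hex0 (α 0) h0 (hdα 0)
    refine ⟨pm (lin c ^ 0) γ, pm_mem lpw k Z c (m - 1) 0 γ (by rw [Nat.cast_zero, add_zero]; exact hγ), ?_⟩
    rw [pow_zero, pm_one, pm_one, hγ2]
  · have hαl := hα (l + 1)
    have hβl := hβ l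
    have hk : k + (l : ℤ) + 1 = k + ((l + 1 : ℕ) : ℤ) := by push_cast; ring
    by_cases hpl : p ∣ l + 1
    · have hz : ((l + 1 : ℕ) : K) = 0 := (CharP.cast_eq_zero_iff K p (l + 1)).2 hpl
      have hdb : dd (β l) = 0 := by rw [hdβ, hz, zero_smul]
      have hle : p ≤ l + 1 := Nat.le_of_dvd (Nat.succ_pos l) hpl
      obtain ⟨x1, x2⟩ := hex (l + 1) hle
      obtain ⟨γ, hγ, hγ2⟩ := x1 _ hαl (hdα (l + 1))
      rw [hk] at hβl
      obtain ⟨γ', hγ', hγ2'⟩ := x2 _ hβl hdb
      refine Submodule.add_mem _ ⟨pm (lin c ^ (l + 1)) γ, pm_mem lpw k Z c (m - 1) (l + 1) γ hγ, ?_⟩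
        ⟨- pm (lin c ^ l) (wl c γ'), Submodule.neg_mem _ (wl_mem lpw k Z c (m - 1) l γ'
          (by rw [hk]; exact hγ')), ?_⟩
      · rw [dd_pm dif, hz, zero_smul, zero_add, hγ2]
      · rw [map_neg, dd_wl dif, neg_neg, hγ2']
    · have hz : ((l + 1 : ℕ) : K) ≠ 0 := fun h => hpl ((CharP.cast_eq_zero_iff K p (l + 1)).1 h)
      refine ⟨pm (lin c ^ (l + 1)) ((((l + 1 : ℕ) : K))⁻¹ • β l),
        pm_mem lpw k Z c (m - 1) (l + 1) _ (Submodule.smul_mem _ _ (by rw [← hk]; exact hβl)), ?_⟩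
      rw [dd_pm dif, map_smul, map_smul, smul_smul, mul_inv_cancel₀ hz, one_smul, map_smul, hdβ,
        smul_smul, inv_mul_cancel₀ hz, one_smul]
      abel

end Pool.Agent.ATB.H49
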